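import Mathlib

/-!
# Weak phase retrievable frames with `2n - 2` vectors are nowhere dense

For `I = {0, …, n-2}` let `u` be a normal vector to the first `n - 1` vectors and `v` a normal vector
to the last `n - 1` vectors of the family. For all reals `a, b` the vectors `a u + b v` and
`a u - b v` have the same absolute inner products with all members of the family. If
`(u 0)² (v 1)² ≠ (u 1)² (v 0)²` then for suitable `a, b` the products of the coordinates `0` and of
the coordinates `1` of these two vectors have opposite signs. So the frames which do weak phase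
retrieval lie in the zero set of a polynomial, which does not vanish identically.
-/

set_option autoImplicit false

open Matrix Topology Polynomial

namespace Pool.Agent.Results.MP_e57dcf_an.NotDense

/-- The family `x` of `m` vectors of `ℝ^n` is a frame: there are frame bounds `0 < A ≤ B < ∞`. -/
def IsFrame {n m : ℕ} (x : Fin m → EuclideanSpace ℝ (Fin n)) : Prop :=
  ∃ A B : ℝ, 0 < A ∧ A ≤ B ∧ ∀ v : EuclideanSpace ℝ (Fin n),
    A * ‖v‖ ^ 2 ≤ ∑ i, |inner ℝ v (x i)| ^ 2 ∧ ∑ i, |inner ℝ v (x i)| ^ 2 ≤ B * ‖v‖ ^ 2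

/-- The space of all frames with `m` vectors for `ℝ^n`, as a subspace of `(ℝ^n)^m`. -/
abbrev Frames (n m : ℕ) : Type := {x : Fin m → EuclideanSpace ℝ (Fin n) // IsFrame x}

/-- `x` and `y` weakly have the same phase. -/
def WeaklySamePhase {n : ℕ} (x y : EuclideanSpace ℝ (Fin n)) : Prop :=
  ∃ θ : SignType, (θ = 1 ∨ θ = -1) ∧
    ∀ k, x k * y k ≠ 0 → SignType.sign (x k) = θ * SignType.sign (y k)

/-- The family `x` does weak phase retrieval. -/
def DoesWeakPhaseRetrieval {n m : ℕ} (x : Fin m → EuclideanSpace ℝ (Fin n)) : Prop :=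
  ∀ v w : EuclideanSpace ℝ (Fin n), (∀ i, |inner ℝ v (x i)| = |inner ℝ w (x i)|) →
    WeaklySamePhase v w

/-- The set of the frames with `2 n - 2` vectors for `ℝ^n` which do weak phase retrieval. -/
def W (n : ℕ) : Set (Frames n (2 * n - 2)) := {x | DoesWeakPhaseRetrieval x.1}

theorem two_eq (m : ℕ) : (2 : Fin (m + 2)) = 1 + 1 := by
  apply Fin.ext
  rw [Fin.val_add]
  rcases m with _ | m
  · rfl
  · show 2 % (m + 1 + 2) = (1 % (m + 1 + 2) + 1 % (m + 1 + 2)) % (m + 1 + 2)
    rw [Nat.mod_eq_of_lt (by omega : 1 < m + 1 + 2)]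

/-! ### Normal vectors -/

section normals

variable {m : ℕ}

/-- the first `n - 1` indices -/
def ia (i : Fin (m + 1)) : Fin (2 * (m + 2) - 2) := ⟨i.1, by omega⟩

/-- the last `n - 1` indices -/
def ib (i : Fin (m + 1)) : Fin (2 * (m + 2) - 2) := ⟨i.1 + (m + 1), by omega⟩

theorem index_cases (j : Fin (2 * (m + 2) - 2)) : (∃ i, j = ia i) ∨ ∃ i, j = ib i := by
  rcases lt_or_ge j.1 (m + 1) with h | h
  · exact Or.inl ⟨⟨j.1, h⟩, rfl⟩
  · refine Or.inr ⟨⟨j.1 - (m + 1), by omega⟩, ?_⟩
    apply Fin.ext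
    simp only [ib]
    omega

/-- the matrix with rows `y 0, …, y m` and `0` -/
def mat {R : Type*} [CommRing R] (y : Fin (m + 1) → Fin (m + 2) → R) :
    Matrix (Fin (m + 2)) (Fin (m + 2)) R :=
  fun r c => if h : r.1 < m + 1 then y ⟨r.1, h⟩ c else 0

/-- a normal vector to `y 0, …, y m` -/
def nrm {R : Type*} [CommRing R] (y : Fin (m + 1) → Fin (m + 2) → R) (k : Fin (m + 2)) : R :=
  (mat y).adjugate k (Fin.last (m + 1))

theorem mat_castSucc {R : Type*} [CommRing R] (y : Fin (m + 1) → Fin (m + 2) → R)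
    (i : Fin (m + 1)) (c : Fin (m + 2)) : mat y i.castSucc c = y i c := by
  have h : (i.castSucc : Fin (m + 2)).1 < m + 1 := i.2
  simp only [mat, dif_pos h]
  rfl

theorem nrm_orth {R : Type*} [CommRing R] (y : Fin (m + 1) → Fin (m + 2) → R)
    (i : Fin (m + 1)) : ∑ k, y i k * nrm y k = 0 := by
  have h := congrFun (congrFun (mul_adjugate (mat y)) i.castSucc) (Fin.last (m + 1))
  rw [Matrix.mul_apply, Matrix.smul_apply, Matrix.one_apply_ne (Fin.castSucc_lt_last i).ne,
    smul_zero] at h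
  rw [← h]
  exact Finset.sum_congr rfl fun k _ => by rw [mat_castSucc]; rfl

theorem nrm_map {R S : Type*} [CommRing R] [CommRing S] (f : R →+* S)
    (y : Fin (m + 1) → Fin (m + 2) → R) (k : Fin (m + 2)) :
    f (nrm y k) = nrm (fun i c => f (y i c)) k := by
  have h := congrFun (congrFun (f.map_adjugate (mat y)) k) (Fin.last (m + 1))
  rw [RingHom.mapMatrix_apply, Matrix.map_apply] at h
  unfold nrm
  rw [h]
  congr 2
  ext r c
  simp only [RingHom.mapMatrix_apply, Matrix.map_apply, mat]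
  split_ifs
  · rfl
  · exact map_zero f

theorem nrm_continuous {Z : Type*} [TopologicalSpace Z] {y : Z → Fin (m + 1) → Fin (m + 2) → ℝ}
    (hy : ∀ i c, Continuous fun z => y z i c) (k : Fin (m + 2)) :
    Continuous fun z => nrm (y z) k := by
  have h : Continuous fun z => mat (y z) := by
    refine continuous_matrix fun r c => ?_
    simp only [mat]
    split_ifs with h
    · exact hy _ _
    · exact continuous_const
  exact h.matrix_adjugate.matrix_elem k _

/-- the normal vector to the standard vectors with the indices `s, s + 1, …, s + m` -/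
theorem nrm_std (s : Fin (m + 2)) :
    nrm (fun (i : Fin (m + 1)) (c : Fin (m + 2)) => if c = i.castSucc + s then (1 : ℝ) else 0)
      (Fin.last (m + 1) + s) ^ 2 = 1 := by
  have h : (mat fun (i : Fin (m + 1)) (c : Fin (m + 2)) =>
      if c = i.castSucc + s then (1 : ℝ) else 0).updateRow (Fin.last (m + 1))
        (Pi.single (Fin.last (m + 1) + s) 1) =
          Equiv.Perm.permMatrix ℝ (Equiv.addRight s) := by
    ext r c
    have h1 : Equiv.Perm.permMatrix ℝ (Equiv.addRight s) r c =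
        (Pi.single (r + s) (1 : ℝ) : Fin (m + 2) → ℝ) c :=
      congrFun (PEquiv.toMatrix_toPEquiv_apply (Equiv.addRight s) r) c
    rw [h1, Pi.single_apply]
    rcases Fin.eq_castSucc_or_eq_last r with ⟨i, rfl⟩ | rfl
    · rw [Matrix.updateRow_ne (Fin.castSucc_lt_last i).ne, mat_castSucc]
    · rw [Matrix.updateRow_self, Pi.single_apply]
  unfold nrm
  rw [Matrix.adjugate_apply, h, Matrix.det_permutation]
  rcases Int.units_eq_one_or (Equiv.Perm.sign (Equiv.addRight s)) with h1 | h1 <;> rw [h1] <;> simp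

theorem nrm_std_zero (s : Fin (m + 2)) (i : Fin (m + 1)) :
    nrm (fun (i : Fin (m + 1)) (c : Fin (m + 2)) => if c = i.castSucc + s then (1 : ℝ) else 0)
      (i.castSucc + s) = 0 := by
  have h := nrm_orth (fun (i : Fin (m + 1)) (c : Fin (m + 2)) =>
    if c = i.castSucc + s then (1 : ℝ) else 0) i
  simpa using h

end normals

/-! ### The polynomial -/

section poly

variable {m : ℕ}

/-- the polynomial in the coordinates of the family -/
def P {R : Type*} [CommRing R] (y : Fin (2 * (m + 2) - 2) → Fin (m + 2) → R) : R :=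
  nrm (fun i => y (ia i)) 0 ^ 2 * nrm (fun i => y (ib i)) 1 ^ 2 -
    nrm (fun i => y (ia i)) 1 ^ 2 * nrm (fun i => y (ib i)) 0 ^ 2

theorem P_map {R S : Type*} [CommRing R] [CommRing S] (f : R →+* S)
    (y : Fin (2 * (m + 2) - 2) → Fin (m + 2) → R) : f (P y) = P (fun i c => f (y i c)) := by
  unfold P
  rw [map_sub, map_mul, map_mul, map_pow, map_pow, map_pow, map_pow, nrm_map, nrm_map, nrm_map,
    nrm_map]

/-- `P` along a line is a polynomial -/
theorem exists_poly (y z : Fin (2 * (m + 2) - 2) → Fin (m + 2) → ℝ) :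
    ∃ q : ℝ[X], ∀ t : ℝ, q.eval t = P (fun i c => y i c + t * z i c) := by
  refine ⟨P (fun i c => C (y i c) + X * C (z i c)), fun t => ?_⟩
  have h := P_map (evalRingHom t) (fun i c => C (y i c) + X * C (z i c))
  have e : (fun i c => (evalRingHom t) (C (y i c) + X * C (z i c))) =
      fun i c => y i c + t * z i c := by
    funext i c
    rw [coe_evalRingHom, eval_add, eval_mul, eval_X, eval_C, eval_C]
  rw [e] at h
  exact h

theorem P_continuous : Continuous fun x : Fin (2 * (m + 2) - 2) → EuclideanSpace ℝ (Fin (m + 2)) =>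
    P fun i c => x i c := by
  unfold P
  have h : ∀ (g : Fin (m + 1) → Fin (2 * (m + 2) - 2)) (k : Fin (m + 2)),
      Continuous fun x : Fin (2 * (m + 2) - 2) → EuclideanSpace ℝ (Fin (m + 2)) =>
        nrm (fun i c => x (g i) c) k := by
    intro g k
    refine nrm_continuous (y := fun (x : Fin (2 * (m + 2) - 2) → EuclideanSpace ℝ (Fin (m + 2)))
      i c => x (g i) c) (fun i c => ?_) k
    exact (EuclideanSpace.proj (𝕜 := ℝ) c).continuous.comp (continuous_apply (g i))
  exact (((h ia 0).pow 2).mul ((h ib 1).pow 2)).sub (((h ia 1).pow 2).mul ((h ib 0).pow 2))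

/-- the base family: two blocks of `n - 1` cyclically consecutive standard vectors -/
noncomputable def base (m : ℕ) (j : Fin (2 * (m + 2) - 2)) : EuclideanSpace ℝ (Fin (m + 2)) :=
  WithLp.toLp 2 fun c =>
    if h : j.1 < m + 1 then
      (if c = (⟨j.1, h⟩ : Fin (m + 1)).castSucc + 1 then 1 else 0)
    else (if c = (⟨j.1 - (m + 1), by omega⟩ : Fin (m + 1)).castSucc + 2 then 1 else 0)

theorem base_ia (i : Fin (m + 1)) (c : Fin (m + 2)) :
    base m (ia i) c = if c = i.castSucc + 1 then 1 else 0 := by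
  have h : (ia i : Fin (2 * (m + 2) - 2)).1 < m + 1 := i.2
  simp only [base, dif_pos h]
  rfl

theorem base_ib (i : Fin (m + 1)) (c : Fin (m + 2)) :
    base m (ib i) c = if c = i.castSucc + 2 then 1 else 0 := by
  have h : ¬ (ib i : Fin (2 * (m + 2) - 2)).1 < m + 1 := by
    simp only [ib]; omega
  have h2 : (⟨(ib i : Fin (2 * (m + 2) - 2)).1 - (m + 1), by
      have := (ib i : Fin (2 * (m + 2) - 2)).2; omega⟩ : Fin (m + 1)) = i := by
    apply Fin.ext
    simp only [ib]
    omega
  simp only [base, dif_neg h]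
  rw [h2]

theorem P_base : P (fun i c => base m i c) = 1 := by
  unfold P
  simp only [base_ia, base_ib]
  have h1 := nrm_std (m := m) 1
  have h2 := nrm_std (m := m) 2
  have e1 : Fin.last (m + 1) + 1 = (0 : Fin (m + 2)) := Fin.last_add_one (m + 1)
  have e2 : Fin.last (m + 1) + 2 = (1 : Fin (m + 2)) := by
    have : (2 : Fin (m + 2)) = 1 + 1 := two_eq m
    rw [this, ← add_assoc, e1, zero_add]
  rw [e1] at h1
  rw [e2] at h2
  have h3 := nrm_std_zero (m := m) 1 0
  rw [show (Fin.castSucc (0 : Fin (m + 1)) + 1 : Fin (m + 2)) = 1 by simp] at h3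
  rw [h1, h2, h3]
  ring

end poly

/-! ### Failure of weak phase retrieval -/

section fail

variable {m : ℕ}

theorem inner_eq {n : ℕ} (v w : EuclideanSpace ℝ (Fin n)) : inner ℝ v w = ∑ k, w k * v k := by
  simp [PiLp.inner_apply]

theorem P_eq_zero {x : Fin (2 * (m + 2) - 2) → EuclideanSpace ℝ (Fin (m + 2))}
    (hx : DoesWeakPhaseRetrieval x) : P (fun i c => x i c) = 0 := by
  by_contra hP
  set u : Fin (m + 2) → ℝ := nrm (fun i c => x (ia i) c) with hu
  set v : Fin (m + 2) → ℝ := nrm (fun i c => x (ib i) c) with hv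
  have hP' : P (fun i c => x i c) = u 0 ^ 2 * v 1 ^ 2 - u 1 ^ 2 * v 0 ^ 2 := rfl
  set a : ℝ := Real.sqrt (v 0 ^ 2 + v 1 ^ 2) with ha
  set b : ℝ := Real.sqrt (u 0 ^ 2 + u 1 ^ 2) with hb
  have ha2 : a ^ 2 = v 0 ^ 2 + v 1 ^ 2 := Real.sq_sqrt (by positivity)
  have hb2 : b ^ 2 = u 0 ^ 2 + u 1 ^ 2 := Real.sq_sqrt (by positivity)
  have hua : ∀ i : Fin (m + 1), ∑ k, x (ia i) k * u k = 0 :=
    fun i => nrm_orth (fun i c => x (ia i) c) i
  have hvb : ∀ i : Fin (m + 1), ∑ k, x (ib i) k * v k = 0 :=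
    fun i => nrm_orth (fun i c => x (ib i) c) i
  obtain ⟨θ, -, hθ⟩ := hx (WithLp.toLp 2 fun k => a * u k + b * v k)
    (WithLp.toLp 2 fun k => a * u k - b * v k) (fun j => by
      rw [inner_eq, inner_eq]
      have e1 : ∑ k, x j k * (WithLp.toLp 2 fun k => a * u k + b * v k :
          EuclideanSpace ℝ (Fin (m + 2))) k =
          a * ∑ k, x j k * u k + b * ∑ k, x j k * v k := by
        rw [Finset.mul_sum, Finset.mul_sum, ← Finset.sum_add_distrib]
        exact Finset.sum_congr rfl fun k _ => by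
          show x j k * (a * u k + b * v k) = _
          ring
      have e2 : ∑ k, x j k * (WithLp.toLp 2 fun k => a * u k - b * v k :
          EuclideanSpace ℝ (Fin (m + 2))) k =
          a * ∑ k, x j k * u k - b * ∑ k, x j k * v k := by
        rw [Finset.mul_sum, Finset.mul_sum, ← Finset.sum_sub_distrib]
        exact Finset.sum_congr rfl fun k _ => by
          show x j k * (a * u k - b * v k) = _
          ring
      rw [e1, e2]
      rcases index_cases j with ⟨i, rfl⟩ | ⟨i, rfl⟩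
      · rw [hua i, mul_zero, zero_add, zero_sub, abs_neg]
      · rw [hvb i, mul_zero, add_zero, sub_zero])
  have h0 : (a * u 0 + b * v 0) * (a * u 0 - b * v 0) = P (fun i c => x i c) := by
    rw [hP']
    linear_combination u 0 ^ 2 * ha2 - v 0 ^ 2 * hb2
  have h1 : (a * u 1 + b * v 1) * (a * u 1 - b * v 1) = - P (fun i c => x i c) := by
    rw [hP']
    linear_combination u 1 ^ 2 * ha2 - v 1 ^ 2 * hb2
  have g0 := hθ 0 (by
    show (a * u 0 + b * v 0) * (a * u 0 - b * v 0) ≠ 0
    rw [h0]; exact hP)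
  have g1 := hθ 1 (by
    show (a * u 1 + b * v 1) * (a * u 1 - b * v 1) ≠ 0
    rw [h1]; exact neg_ne_zero.2 hP)
  change SignType.sign (a * u 0 + b * v 0) = θ * SignType.sign (a * u 0 - b * v 0) at g0
  change SignType.sign (a * u 1 + b * v 1) = θ * SignType.sign (a * u 1 - b * v 1) at g1
  have k0 : SignType.sign (P (fun i c => x i c)) = θ * (SignType.sign (a * u 0 - b * v 0)) ^ 2 := by
    rw [← h0, sign_mul, g0, pow_two, mul_assoc]
  have k1 : SignType.sign (- P (fun i c => x i c)) =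
      θ * (SignType.sign (a * u 1 - b * v 1)) ^ 2 := by
    rw [← h1, sign_mul, g1, pow_two, mul_assoc]
  have n0 : a * u 0 - b * v 0 ≠ 0 := by
    intro h
    rw [h, mul_zero] at h0
    exact hP h0.symm
  have n1 : a * u 1 - b * v 1 ≠ 0 := by
    intro h
    rw [h, mul_zero] at h1
    exact hP (neg_eq_zero.1 h1.symm)
  have s0 : (SignType.sign (a * u 0 - b * v 0)) ^ 2 = 1 := by
    rcases lt_or_gt_of_ne n0 with h | h
    · rw [sign_neg h]; rfl
    · rw [sign_pos h]; rfl
  have s1 : (SignType.sign (a * u 1 - b * v 1)) ^ 2 = 1 := by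
    rcases lt_or_gt_of_ne n1 with h | h
    · rw [sign_neg h]; rfl
    · rw [sign_pos h]; rfl
  rw [s0, mul_one] at k0
  rw [s1, mul_one] at k1
  rw [← k0] at k1
  rcases lt_or_gt_of_ne hP with h | h
  · rw [sign_neg h, sign_pos (neg_pos.2 h)] at k1
    exact absurd k1 (by decide)
  · rw [sign_pos h, sign_neg (neg_lt_zero.2 h)] at k1
    exact absurd k1 (by decide)

end fail

/-! ### The set of frames is open -/

theorem sq_inner_le {n : ℕ} (v w : EuclideanSpace ℝ (Fin n)) :
    |inner ℝ v w| ^ 2 ≤ ‖w‖ ^ 2 * ‖v‖ ^ 2 := by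
  have h := abs_real_inner_le_norm v w
  calc |inner ℝ v w| ^ 2 ≤ (‖v‖ * ‖w‖) ^ 2 := pow_le_pow_left₀ (abs_nonneg _) h 2
    _ = _ := by ring

/-- the upper frame bound always exists -/
theorem isFrame_of_lower {n m : ℕ} {x : Fin m → EuclideanSpace ℝ (Fin n)} {A : ℝ} (hA : 0 < A)
    (h : ∀ v : EuclideanSpace ℝ (Fin n), A * ‖v‖ ^ 2 ≤ ∑ i, |inner ℝ v (x i)| ^ 2) :
    IsFrame x := by
  refine ⟨A, A + ∑ i, ‖x i‖ ^ 2, hA, by
    have : 0 ≤ ∑ i, ‖x i‖ ^ 2 := Finset.sum_nonneg fun i _ => by positivity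
    linarith, fun v => ⟨h v, ?_⟩⟩
  have h1 : ∑ i, |inner ℝ v (x i)| ^ 2 ≤ (∑ i, ‖x i‖ ^ 2) * ‖v‖ ^ 2 := by
    rw [Finset.sum_mul]
    exact Finset.sum_le_sum fun i _ => sq_inner_le v (x i)
  have h2 : 0 ≤ A * ‖v‖ ^ 2 := by positivity
  rw [add_mul]
  linarith

theorem isOpen_frames {n m : ℕ} :
    IsOpen {x : Fin m → EuclideanSpace ℝ (Fin n) | IsFrame x} := by
  rw [isOpen_iff_mem_nhds]
  rintro x ⟨A, B, hA, -, hx⟩
  have hc : ContinuousAt (fun y : Fin m → EuclideanSpace ℝ (Fin n) => ∑ i, ‖y i - x i‖ ^ 2) x := by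
    refine Continuous.continuousAt ?_
    fun_prop
  have h0 : (fun y : Fin m → EuclideanSpace ℝ (Fin n) => ∑ i, ‖y i - x i‖ ^ 2) x = 0 := by
    simp
  have h1 : ∀ᶠ y in 𝓝 x, ∑ i, ‖y i - x i‖ ^ 2 < A / 4 := by
    have := hc.eventually (gt_mem_nhds (show (fun y : Fin m → EuclideanSpace ℝ (Fin n) =>
      ∑ i, ‖y i - x i‖ ^ 2) x < A / 4 by rw [h0]; positivity))
    exact this
  filter_upwards [h1] with y hy
  refine isFrame_of_lower (A := A / 4) (by positivity) fun v => ?_
  have h2 : ∀ i, |inner ℝ v (x i)| ^ 2 ≤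
      2 * |inner ℝ v (y i)| ^ 2 + 2 * (‖y i - x i‖ ^ 2 * ‖v‖ ^ 2) := by
    intro i
    have h3 := sq_inner_le v (y i - x i)
    rw [inner_sub_right] at h3
    rw [sq_abs] at h3 ⊢
    rw [sq_abs]
    nlinarith [sq_nonneg (inner ℝ v (y i) + (inner ℝ v (y i) - inner ℝ v (x i)))]
  have h3 : ∑ i, |inner ℝ v (x i)| ^ 2 ≤
      2 * ∑ i, |inner ℝ v (y i)| ^ 2 + 2 * ((∑ i, ‖y i - x i‖ ^ 2) * ‖v‖ ^ 2) := by
    rw [Finset.sum_mul, Finset.mul_sum, Finset.mul_sum, ← Finset.sum_add_distrib]
    exact Finset.sum_le_sum fun i _ => h2 i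
  have h4 : (∑ i, ‖y i - x i‖ ^ 2) * ‖v‖ ^ 2 ≤ A / 4 * ‖v‖ ^ 2 :=
    mul_le_mul_of_nonneg_right hy.le (by positivity)
  have h5 := (hx v).1
  linarith

theorem isFrame_base (m : ℕ) : IsFrame (base m) := by
  refine isFrame_of_lower (A := 1) one_pos fun v => ?_
  rw [one_mul, EuclideanSpace.norm_sq_eq]
  -- the standard vector with index `k` belongs to the base family
  have hex : ∀ k : Fin (m + 2), ∃ j, ∀ c, base m j c = if c = k then 1 else 0 := by
    intro k
    rcases Fin.eq_castSucc_or_eq_last (k - 1) with ⟨i, hi⟩ | hi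
    · refine ⟨ia i, fun c => ?_⟩
      rw [base_ia, ← hi, sub_add_cancel]
    · refine ⟨ib (Fin.last m), fun c => ?_⟩
      have e : (Fin.last m).castSucc + 2 = k := by
        have e1 : (Fin.last m).castSucc + 1 = Fin.last (m + 1) := by
          apply Fin.ext
          simp
        have e2 : (2 : Fin (m + 2)) = 1 + 1 := two_eq m
        rw [e2, ← add_assoc, e1, ← hi, sub_add_cancel]
      rw [base_ib, e]
  choose g hg using hex
  have hinj : Function.Injective g := by
    intro k l h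
    have h1 := hg k k
    rw [h, hg l k, if_pos rfl] at h1
    by_contra hkl
    rw [if_neg hkl] at h1
    exact zero_ne_one h1
  have h1 : ∀ k, ‖v k‖ ^ 2 = |inner ℝ v (base m (g k))| ^ 2 := by
    intro k
    rw [inner_eq]
    simp [hg]
  calc ∑ k, ‖v k‖ ^ 2 = ∑ k, |inner ℝ v (base m (g k))| ^ 2 := Finset.sum_congr rfl fun k _ => h1 k
    _ = ∑ j ∈ Finset.univ.image g, |inner ℝ v (base m j)| ^ 2 := by
        rw [Finset.sum_image fun a _ b _ h => hinj h]
    _ ≤ _ := Finset.sum_le_sum_of_subset_of_nonneg (Finset.subset_univ _)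
        fun j _ _ => by positivity

theorem line_apply {m : ℕ} (x z : Fin (2 * (m + 2) - 2) → EuclideanSpace ℝ (Fin (m + 2)))
    (t : ℝ) : (fun i c => (x + t • (z - x)) i c) = fun i c => x i c + t * (z i c - x i c) := by
  funext i c
  simp

theorem not_eventually {m : ℕ} (x : Fin (2 * (m + 2) - 2) → EuclideanSpace ℝ (Fin (m + 2))) :
    ¬ ∀ᶠ y in 𝓝 x, P (fun i c => y i c) = 0 := by
  intro hx
  obtain ⟨q, hq'⟩ := exists_poly (fun i c => x i c) (fun i c => base m i c - x i c)
  have hq : ∀ t : ℝ, q.eval t = P (fun i c => (x + t • (base m - x)) i c) := by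
    intro t
    rw [hq', line_apply]
  have hq0 : q ≠ 0 := by
    intro h
    have h1 := hq 1
    rw [h, eval_zero, one_smul, add_sub_cancel, P_base] at h1
    exact zero_ne_one h1
  have hline : Filter.Tendsto (fun t : ℝ => x + t • (base m - x)) (𝓝 0) (𝓝 x) := by
    have h1 : Continuous fun t : ℝ => x + t • (base m - x) :=
      continuous_const.add (continuous_id.smul continuous_const)
    have h2 := h1.tendsto 0
    rwa [zero_smul, add_zero] at h2
  have hz : ∀ᶠ t in 𝓝 (0 : ℝ), q.eval t = 0 := by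
    filter_upwards [hline.eventually hx] with t ht
    rw [hq]
    exact ht
  exact hq0 (Polynomial.eq_zero_of_infinite_isRoot q (infinite_of_mem_nhds 0 hz))

theorem nowhereDense_aux {α : Type*} [TopologicalSpace α] {p : α → Prop} (hp : IsOpen {x | p x})
    {f : α → ℝ} (hf : Continuous f) (hne : ∀ x, ¬ ∀ᶠ y in 𝓝 x, f y = 0)
    (S : Set {x : α // p x}) (hS : ∀ x ∈ S, f x.1 = 0) : IsNowhereDense S := by
  have hcl : IsClosed {x : {x : α // p x} | f x.1 = 0} :=
    isClosed_eq (hf.comp continuous_subtype_val) continuous_const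
  rw [IsNowhereDense, Set.eq_empty_iff_forall_notMem]
  intro x hx
  have hx1 : {x : {x : α // p x} | f x.1 = 0} ∈ 𝓝 x :=
    Filter.mem_of_superset (mem_interior_iff_mem_nhds.1 hx) (closure_minimal hS hcl)
  rw [nhds_subtype_eq_comap, Filter.mem_comap] at hx1
  obtain ⟨t, ht, hts⟩ := hx1
  refine hne x.1 ?_
  filter_upwards [ht, hp.mem_nhds x.2] with y hy hF
  exact @hts ⟨y, hF⟩ hy

/-! ### The result -/

/-- **The frames with `2 n - 2` vectors which do weak phase retrieval in `ℝ^n`, `n ≥ 2`, are not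
dense in the set of all frames with `2 n - 2` vectors; they are even nowhere dense.** -/
theorem result (n : ℕ) (hn : 2 ≤ n) : ¬ Dense (W n) ∧ IsNowhereDense (W n) := by
  obtain ⟨m, rfl⟩ : ∃ m, n = m + 2 := ⟨n - 2, by omega⟩
  have hnd : IsNowhereDense (W (m + 2)) :=
    nowhereDense_aux isOpen_frames P_continuous not_eventually (W (m + 2))
      fun x hx => P_eq_zero hx
  refine ⟨fun hd => ?_, hnd⟩
  have h1 : interior (closure (W (m + 2))) = ∅ := hnd
  rw [hd.closure_eq, interior_univ] at h1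
  have h2 : (⟨base m, isFrame_base m⟩ : Frames (m + 2) (2 * (m + 2) - 2)) ∈
      (Set.univ : Set (Frames (m + 2) (2 * (m + 2) - 2))) := Set.mem_univ _
  rw [h1] at h2
  exact h2

end Pool.Agent.Results.MP_e57dcf_an.NotDense
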